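import Pool.Agent.W682.TW.Stm

/-! Project TW, part LOC: locally supported by convex functions implies convex. -/

set_option autoImplicit false
set_option maxHeartbeats 4000000

namespace Pool.Agent.W85.TW.Loc
open Pool.Agent.W682.TW

theorem main : S_LOC := by
  intro h hc hloc
  apply LinearOrder.convexOn_of_lt convex_univ
  intro x _ y _ hxy a b ha hb hab
  by_contra hcon
  push Not at hcon
  rw [smul_eq_mul, smul_eq_mul, smul_eq_mul, smul_eq_mul] at hcon
  have hyx : 0 < y - x := by linarith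
  obtain ⟨s, hs⟩ : ∃ s : ℝ, s = (h y - h x) / (y - x) := ⟨_, rfl⟩
  have hs' : s * (y - x) = h y - h x := by
    rw [hs]
    field_simp
  obtain ⟨f, hf⟩ : ∃ f : ℝ → ℝ, f = fun t => h t - (h x + s * (t - x)) := ⟨_, rfl⟩
  have hfv : ∀ t, f t = h t - (h x + s * (t - x)) := by
    intro t
    rw [hf]
  have hfc : Continuous f := by
    rw [hf]
    fun_prop
  have hfx : f x = 0 := by
    rw [hfv]
    ring
  have hfy : f y = 0 := by
    rw [hfv]
    linarith
  have hp : 0 < f (a * x + b * y) := by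
    rw [hfv]
    have h1 : a = 1 - b := by linarith
    have h2 : a * x + b * y - x = b * (y - x) := by
      rw [h1]
      ring
    have h3 : s * (a * x + b * y - x) = b * (h y - h x) := by
      rw [h2, ← hs']
      ring
    rw [h3]
    have h4 : h x + b * (h y - h x) = a * h x + b * h y := by
      rw [h1]
      ring
    rw [h4]
    linarith
  have hpm : a * x + b * y ∈ Set.Icc x y := by
    have h1 : a = 1 - b := by linarith
    have hb1 : b ≤ 1 := by linarith
    constructor
    · have : a * x + b * y - x = b * (y - x) := by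
        rw [h1]
        ring
      nlinarith
    · have : y - (a * x + b * y) = a * (y - x) := by
        have : b = 1 - a := by linarith
        rw [this]
        ring
      nlinarith
  obtain ⟨z, hz, hzm⟩ := isCompact_Icc.exists_isMaxOn (⟨_, hpm⟩ : (Set.Icc x y).Nonempty)
    hfc.continuousOn
  have hM : 0 < f z := lt_of_lt_of_le hp (hzm hpm)
  have hmax : ∀ t ∈ Set.Icc x y, f t ≤ f z := fun t ht => hzm ht
  obtain ⟨A, hA⟩ : ∃ A : Set ℝ, A = Set.Icc x y ∩ {t | f t = f z} := ⟨_, rfl⟩
  have hAc : IsClosed A := by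
    rw [hA]
    exact isClosed_Icc.inter (isClosed_eq hfc continuous_const)
  have hAne : A.Nonempty := by
    rw [hA]
    exact ⟨z, hz, rfl⟩
  have hAb : BddBelow A := by
    rw [hA]
    exact ⟨x, fun t ht => ht.1.1⟩
  have ht0 : sInf A ∈ A := hAc.csInf_mem hAne hAb
  obtain ⟨t0, ht0e⟩ : ∃ t0 : ℝ, t0 = sInf A := ⟨_, rfl⟩
  have hlow : ∀ t ∈ A, t0 ≤ t := by
    intro t ht
    rw [ht0e]
    exact csInf_le hAb ht
  rw [← ht0e] at ht0
  have ht0' : t0 ∈ Set.Icc x y ∧ f t0 = f z := by
    rw [hA] at ht0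
    exact ht0
  obtain ⟨⟨h1, h2⟩, h3⟩ := ht0'
  have hxt : x < t0 := by
    apply lt_of_le_of_ne h1
    rintro rfl
    rw [hfx] at h3
    linarith
  have hty : t0 < y := by
    apply lt_of_le_of_ne h2
    rintro rfl
    rw [hfy] at h3
    linarith
  obtain ⟨φ, r, hr, hφc, hφ0, hφh⟩ := hloc t0
  obtain ⟨d, hd0, hdr, hdx, hdy⟩ : ∃ d : ℝ, 0 < d ∧ d < r ∧ d < t0 - x ∧ d < y - t0 := by
    refine ⟨min r (min (t0 - x) (y - t0)) / 2, ?_, ?_, ?_, ?_⟩
    · have : 0 < min r (min (t0 - x) (y - t0)) :=
        lt_min hr (lt_min (by linarith) (by linarith))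
      linarith
    · have h4 : min r (min (t0 - x) (y - t0)) ≤ r := min_le_left _ _
      have : 0 < min r (min (t0 - x) (y - t0)) :=
        lt_min hr (lt_min (by linarith) (by linarith))
      linarith
    · have h4 : min r (min (t0 - x) (y - t0)) ≤ t0 - x := (min_le_right _ _).trans (min_le_left _ _)
      have : 0 < min r (min (t0 - x) (y - t0)) :=
        lt_min hr (lt_min (by linarith) (by linarith))
      linarith
    · have h4 : min r (min (t0 - x) (y - t0)) ≤ y - t0 := (min_le_right _ _).trans (min_le_right _ _)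
      have : 0 < min r (min (t0 - x) (y - t0)) :=
        lt_min hr (lt_min (by linarith) (by linarith))
      linarith
  have hm1 : t0 - d ∈ Set.Ioo (t0 - r) (t0 + r) := ⟨by linarith, by linarith⟩
  have hm2 : t0 + d ∈ Set.Ioo (t0 - r) (t0 + r) := ⟨by linarith, by linarith⟩
  have hconv := hφc.2 hm1 hm2 (by norm_num : (0 : ℝ) ≤ 1 / 2) (by norm_num : (0 : ℝ) ≤ 1 / 2)
    (by norm_num)
  rw [smul_eq_mul, smul_eq_mul, smul_eq_mul, smul_eq_mul] at hconv
  have e1 : 1 / 2 * (t0 - d) + 1 / 2 * (t0 + d) = t0 := by ring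
  rw [e1] at hconv
  have g1 := hφh _ hm1
  have g2 := hφh _ hm2
  have k2 : f (t0 + d) ≤ f z := hmax _ ⟨by linarith, by linarith⟩
  have k1 : f (t0 - d) < f z := by
    apply lt_of_le_of_ne (hmax _ ⟨by linarith, by linarith⟩)
    intro he
    have : t0 - d ∈ A := by
      rw [hA]
      exact ⟨⟨by linarith, by linarith⟩, he⟩
    have := hlow _ this
    linarith
  rw [← h3] at k1 k2
  rw [hfv, hfv] at k1 k2
  nlinarith

end Pool.Agent.W85.TW.Loc
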